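import Pool.Agent.H91.HiSchw

set_option autoImplicit false

open Complex Metric Set H91.HiSchw in
theorem Pool.Agent.Results.MP_9404a8_an.SlitMap.result :
    ∃ (p q : ℕ) (f : ℂ → ℂ) (F : ℂ → ℂ → ℂ), 0 < p ∧ 0 < q ∧ p ≠ q ∧
    DifferentiableOn ℂ f (ball 0 1) ∧ InjOn f (ball 0 1) ∧ f 0 = 0 ∧ deriv f 0 = 1 ∧
    DifferentiableOn ℂ (fun x : ℂ × ℂ => F x.1 x.2) (ball 0 1 ×ˢ ball 0 1) ∧ F 0 0 = 0 ∧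
    (∀ z ∈ ball (0:ℂ) 1, ∀ w ∈ ball (0:ℂ) 1, z ≠ w → z ≠ 0 → w ≠ 0 →
      exp (F z w) = (f z - f w) / (z - w) * (z / f z) * (w / f w)) ∧
    ∃ z ∈ ball (0:ℂ) 1, ((p + q - 1).factorial : ℝ) <
      ‖iteratedDeriv p (fun u => iteratedDeriv q (F u) z) z‖ * (1 - ‖z‖ ^ 2) ^ (p + q) :=
  main
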